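import Pool.Agent.N520.AN.Stm4

/-!
# Project SP: local hyperplanes in the complement give convexity
-/

set_option autoImplicit false

open Set Filter Topology

namespace Pool.Agent.N540.SP

open Pool.Agent.N520.AN

variable {E : Type} [NormedAddCommGroup E] [NormedSpace ℝ E]

theorem isOpen_star {Ω : Set E} (hΩ : IsOpen Ω) (x : E) : IsOpen {y : E | segment ℝ x y ⊆ Ω} := by
  rw [Metric.isOpen_iff]
  intro y hy
  have hc : IsCompact (segment ℝ x y) := by
    rw [segment_eq_image']
    exact isCompact_Icc.image (by fun_prop)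
  obtain ⟨δ, hδ, hδΩ⟩ := hc.exists_thickening_subset_open hΩ hy
  refine ⟨δ, hδ, fun y' hy' => ?_⟩
  rw [Metric.mem_ball, dist_eq_norm] at hy'
  show segment ℝ x y' ⊆ Ω
  rw [segment_eq_image']
  rintro _ ⟨t, ht, rfl⟩
  apply hδΩ
  rw [Metric.mem_thickening_iff]
  refine ⟨x + t • (y - x), ?_, ?_⟩
  · rw [segment_eq_image']
    exact ⟨t, ht, rfl⟩
  · have e : (x + t • (y' - x)) - (x + t • (y - x)) = t • (y' - y) := by
      rw [smul_sub, smul_sub, smul_sub]
      abel
    show dist (x + t • (y' - x)) (x + t • (y - x)) < δ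
    rw [dist_eq_norm, e, norm_smul, Real.norm_eq_abs, abs_of_nonneg ht.1]
    calc t * ‖y' - y‖ ≤ 1 * ‖y' - y‖ := mul_le_mul_of_nonneg_right ht.2 (norm_nonneg _)
      _ = ‖y' - y‖ := one_mul _
      _ < δ := hy'

theorem exists_functional [FiniteDimensional ℝ E] (N : Submodule ℝ E)
    (hN : Module.finrank ℝ N + 1 = Module.finrank ℝ E) : ∃ f : E →ₗ[ℝ] ℝ, ∀ v, v ∈ N ↔ f v = 0 := by
  have h1 : N < ⊤ := by
    rw [lt_top_iff_ne_top]
    rintro rfl
    rw [finrank_top] at hN
    omega
  obtain ⟨f, hf, hle⟩ := Submodule.exists_le_ker_of_lt_top N h1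
  have h2 : LinearMap.ker f < ⊤ := by
    rw [lt_top_iff_ne_top]
    intro h
    exact hf (LinearMap.ker_eq_top.1 h)
  have h3 := Submodule.finrank_lt h2.ne
  have h4 : N = LinearMap.ker f := Submodule.eq_of_le_of_finrank_le hle (by omega)
  refine ⟨f, fun v => ?_⟩
  rw [h4, LinearMap.mem_ker]

theorem t_star : S4_STAR := by
  intro E _ _ _ Ω hΩ hconn hloc
  have key : ∀ x ∈ Ω, Ω ⊆ {y : E | segment ℝ x y ⊆ Ω} := by
    intro x hx
    refine hconn.isPreconnected.subset_of_closure_inter_subset (isOpen_star hΩ x)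
      ⟨x, hx, by
        show segment ℝ x x ⊆ Ω
        rw [segment_same]
        exact singleton_subset_iff.2 hx⟩ ?_
    rintro y ⟨hyc, hyΩ⟩
    by_contra hcon
    obtain ⟨u, hu, huy⟩ := mem_closure_iff_seq_limit.1 hyc
    set γ : ℝ → E := fun t => x + t • (y - x) with hγ
    have hγc : Continuous γ := by fun_prop
    set T : Set ℝ := Icc 0 1 ∩ γ ⁻¹' Ωᶜ with hT
    have hTc : IsCompact T := isCompact_Icc.inter_right (hΩ.isClosed_compl.preimage hγc)
    have hTn : T.Nonempty := by
      have h1 : ¬ segment ℝ x y ⊆ Ω := hcon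
      rw [segment_eq_image', not_subset] at h1
      obtain ⟨_, ⟨t, ht, rfl⟩, h2⟩ := h1
      exact ⟨t, ht, h2⟩
    set t₀ := sInf T with ht₀
    have ht₀T : t₀ ∈ T := hTc.sInf_mem hTn
    have hbelow : ∀ t, 0 ≤ t → t < t₀ → γ t ∈ Ω := by
      intro t h0 h1
      by_contra h2
      exact absurd (csInf_le hTc.bddBelow (show t ∈ T from ⟨⟨h0, h1.le.trans ht₀T.1.2⟩, h2⟩)) (not_le.2 h1)
    have hpos : 0 < t₀ := by
      rcases ht₀T.1.1.eq_or_lt with h | h
      · exfalso
        apply ht₀T.2
        rw [← h]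
        show x + (0 : ℝ) • (y - x) ∈ Ω
        rw [zero_smul, add_zero]
        exact hx
      · exact h
    have hlt : t₀ < 1 := by
      rcases ht₀T.1.2.eq_or_lt with h | h
      · exfalso
        apply ht₀T.2
        rw [h]
        show x + (1 : ℝ) • (y - x) ∈ Ω
        rw [one_smul, add_sub_cancel]
        exact hyΩ
      · exact h
    have hd : Tendsto (fun j => u j - x) atTop (𝓝 (y - x)) := huy.sub_const x
    have hpc : γ t₀ ∈ closure Ω := by
      refine mem_closure_of_tendsto (f := fun j => x + t₀ • (u j - x)) (b := atTop)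
        ((hd.const_smul t₀).const_add x) (Eventually.of_forall fun j => ?_)
      apply hu j
      rw [segment_eq_image']
      exact ⟨t₀, ht₀T.1, rfl⟩
    obtain ⟨N, hN, ε, hε, hloc'⟩ := hloc (γ t₀) hpc ht₀T.2
    obtain ⟨f, hf⟩ := exists_functional N hN
    have hfc : Continuous f := f.continuous_of_finiteDimensional
    by_cases h0 : f (y - x) = 0
    · -- the segment lies in the hyperplane
      obtain ⟨s, hs0, hst, hsε⟩ : ∃ s : ℝ, 0 < s ∧ s < t₀ ∧ s * ‖y - x‖ < ε := by
        have h1 : Tendsto (fun s : ℝ => s * ‖y - x‖) (𝓝[>] 0) (𝓝 (0 * ‖y - x‖)) :=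
          ((continuous_id.mul continuous_const).tendsto 0).mono_left nhdsWithin_le_nhds
        rw [zero_mul] at h1
        have h2 := (h1.eventually_lt_const hε).and
          ((eventually_mem_nhdsWithin).and (nhdsWithin_le_nhds (Iio_mem_nhds hpos)))
        obtain ⟨s, h3, h4, h5⟩ := h2.exists
        exact ⟨s, h4, h5, h3⟩
      have h1 := hloc' (-(s • (y - x))) (by
        rw [hf, map_neg, map_smul, h0, smul_zero, neg_zero]) (by
        rw [norm_neg, norm_smul, Real.norm_eq_abs, abs_of_pos hs0]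
        exact hsε)
      apply h1
      have h2 := hbelow (t₀ - s) (by linarith) (by linarith)
      have e : γ t₀ + -(s • (y - x)) = γ (t₀ - s) := by
        simp only [hγ, sub_smul]
        abel
      rw [e]
      exact h2
    · -- the segments to the `u j` cross the hyperplane
      have hfd : Tendsto (fun j => f (u j - x)) atTop (𝓝 (f (y - x))) :=
        (hfc.tendsto _).comp hd
      have hp : f (γ t₀ - x) = t₀ * f (y - x) := by
        have : γ t₀ - x = t₀ • (y - x) := by simp only [hγ]; abel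
        rw [this, map_smul, smul_eq_mul]
      have ht : Tendsto (fun j => f (γ t₀ - x) / f (u j - x)) atTop (𝓝 t₀) := by
        have h1 := (tendsto_const_nhds (x := f (γ t₀ - x)) (f := atTop)).div hfd h0
        rwa [hp, mul_div_cancel_right₀ _ h0, ← hp] at h1
      have hq : Tendsto (fun j => x + (f (γ t₀ - x) / f (u j - x)) • (u j - x)) atTop (𝓝 (γ t₀)) :=
        (ht.smul hd).const_add x
      have h1 := (hfd.eventually_ne h0).and ((ht.eventually (Ioo_mem_nhds hpos hlt)).and
        (hq.eventually (Metric.ball_mem_nhds _ hε)))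
      obtain ⟨j, h2, h3, h4⟩ := h1.exists
      have h5 : x + (f (γ t₀ - x) / f (u j - x)) • (u j - x) ∈ Ω := by
        apply hu j
        rw [segment_eq_image']
        exact ⟨_, ⟨h3.1.le, h3.2.le⟩, rfl⟩
      have h6 := hloc' (x + (f (γ t₀ - x) / f (u j - x)) • (u j - x) - γ t₀) (by
        rw [hf]
        have e : x + (f (γ t₀ - x) / f (u j - x)) • (u j - x) - γ t₀ =
            (f (γ t₀ - x) / f (u j - x)) • (u j - x) - (γ t₀ - x) := by abel
        rw [e, map_sub, map_smul, smul_eq_mul, div_mul_cancel₀ _ h2, sub_self]) (by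
        rw [← dist_eq_norm]
        exact h4)
      apply h6
      rw [add_sub_cancel]
      exact h5
  rw [convex_iff_segment_subset]
  intro x hx y hy
  exact key x hx hy

end Pool.Agent.N540.SP
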